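import Pool.Agent.R88.TG.Uniq
import Pool.Agent.R88.TG.ARCR
import Pool.Agent.R88.TG.ARCL
import Pool.Agent.R88.TG.FIT
import Pool.Agent.R88.TG.MV
import Pool.Agent.R88.TG.TRVR
import Pool.Agent.R88.TG.TRVL
import Pool.Agent.R88.TG.SGL
import Pool.Agent.R88.TG.EX
import Pool.Agent.R88.TG.TREE
import Pool.Agent.R88.TG.PROB
import Pool.Agent.R88.TG.NUM
import Pool.Agent.R88.TG.TRG

/-!
# Greedy exploration is not within a constant factor of `texp` in RST models (MP_041baa_co)

The definitions (`Reach`, `Greedy`, `Explores`, `law`) are in `Pool.Agent.R88.TG.Defs`, and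
`GreedyTime`, `IsTexp` in `Pool.Agent.R88.TG.Asm`. The RST models are uniform on two trees: the
snapshots are spanning trees of a long chain of paths and cycles, the cycles being cut in one of
two antipodal edges. Within logarithmically many steps both trees occur, so the temporal graph
behaves like the chain itself, on which nearest-neighbour exploration is worse than the optimal
one by an unbounded factor.
-/

set_option autoImplicit false

namespace Pool.Agent.Results.MP_041baa_co.GreedyNotConstant

open scoped ENNReal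
open Pool.Agent.R88.TG

/-- The greedy exploration time is well defined: with an injective tie-breaking rank the greedy
run is unique. -/
theorem greedyTime_unique' {V : Type} [Finite V] {𝒢 : ℕ → SimpleGraph V} {rk : V → ℕ} {v₀ : V}
    (hrk : Function.Injective rk) {τ τ' : ℕ} (h : GreedyTime 𝒢 rk v₀ τ)
    (h' : GreedyTime 𝒢 rk v₀ τ') : τ = τ' :=
  greedyTime_unique hrk h h'

/-- For every `C`, every `δ > 0` and every `N` there are `n ≥ N`, a random spanning tree model on
`n` vertices (a probability distribution `μ` on the trees on `Fin n`), a start vertex `v₀` and a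
linear tie-breaking order (given by an injective rank `rk`, fixed in advance), such that for the
temporal graph `𝒢` whose snapshots are independent samples from `μ` the probability that
`τ ≤ C · texp(𝒢)` is at most `δ`. -/
theorem result (C : ℝ) (δ : ℝ≥0∞) (hδ : δ ≠ 0) (N : ℕ) :
    ∃ n, N ≤ n ∧ ∃ μ : PMF (SimpleGraph (Fin n)), (∀ G ∈ μ.support, G.IsTree) ∧
      ∃ (v₀ : Fin n) (rk : Fin n → ℕ), Function.Injective rk ∧
        law μ {𝒢 | ∀ τ t, GreedyTime 𝒢 rk v₀ τ → IsTexp 𝒢 t → (τ : ℝ) ≤ C * t} ≤ δ := by
  have hMV := sMV sFIT1 sFIT2 sFIT3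
  have hTR := sTRVR sFIT1 hMV
  have hTL := sTRVL sFIT1 hMV
  exact main sSGL (sDBL sARCR sARCL sFIT3) (sNODE sARCR sARCL sFIT1 sFIT2 hTR hTL) sFIT1
    (sEX sFIT1 sFIT2 sFIT3) sTRG (sTREE sFIT1 sFIT2 sFIT3) sPROB sNUM sLIM sRKI C δ hδ N

end Pool.Agent.Results.MP_041baa_co.GreedyNotConstant
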